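import Mathlib
import Pool.Agent.Q239.Sondow.Main

set_option autoImplicit false

/-!
# Q1 of MP_f2d551_nt: small nontrivial `μ`-Sondow numbers

Q1 asks whether every integer `μ ∉ {0, ±1, ±2, 4, 16}` has a `μ`-Sondow number `n` with
`2 ≤ n ≤ |μ|`.  We prove it for every `μ` except possibly those of the form `μ = 2^(2^k)` with
`k ≥ 201`, `μ + 1 = 2^(2^k) + 1` prime and `k` outside 25 explicit residue classes which contain
`240` of the `360` residue classes modulo `360`.

* If `μ > 0` is not a power of two and `2^v` is the exact power of `2` in `μ`, then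
  `n = 2^(v+1) ≤ μ` is a `μ`-Sondow number.
* If `μ = 2^e` and `μ + 1` is prime then `e = 2^k`.
* For an odd squarefree `n` the condition depends only on `2^(2^k)` modulo the primes dividing `n`,
  which is periodic in `k`.  For instance `n = 5·29` works for all `k ≡ 0 (mod 3)`, `n = 97·353` for
  `k ≡ 3 (mod 10)`, `n = 3·11·19` for `k ≡ 4 (mod 12)`.  25 such numbers cover `2/3` of all `k`.
* For `3 ≤ k ≤ 200`, `k ≠ 25`, an explicit `n` is given, and `F_25` is composite.
-/

namespace Pool.Agent.Results.MP_f2d551_nt.OnlyFermatPrimes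

/-- `n` is a `μ`-Sondow number: for every prime `p ∣ n`, with `p^s` the exact power of `p` dividing
`n`, one has `p^s ∣ n/p + μ`. -/
def IsSondow (μ : ℤ) (n : ℕ) : Prop :=
  0 < n ∧ ∀ p s : ℕ, p.Prime → p ∣ n → p ^ s ∣ n → ¬ p ^ (s + 1) ∣ n →
    ((p ^ s : ℕ) : ℤ) ∣ ((n / p : ℕ) : ℤ) + μ

/-- 25 residue classes; the pair `(m, c)` stands for `c mod m`. -/
def classes : List (ℕ × ℕ) :=
  [(3, 0), (10, 3), (12, 4), (12, 9), (20, 4), (24, 5), (24, 10), (36, 1), (36, 14), (36, 18),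
   (60, 12), (60, 23), (60, 29), (60, 34), (60, 40), (60, 42), (60, 43), (90, 40), (120, 1),
   (180, 61), (180, 70), (360, 56), (360, 161), (360, 320), (360, 349)]

/-- `k` lies in one of the 25 residue classes. -/
def Covered (k : ℕ) : Prop := ∃ e ∈ classes, k % e.1 = e.2

/-- The assertion of Q1 holds for every `μ` outside the list of exceptions, except possibly for
`μ = 2^(2^k)` with `k ≥ 201`, `2^(2^k) + 1` prime and `k` not covered; being covered depends only on
`k mod 360`, and `240` of the `360` residues are covered. -/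
theorem result :
    (∀ μ : ℤ, μ ∉ ({0, 1, -1, 2, -2, 4, 16} : Set ℤ) →
      (∃ n : ℕ, 2 ≤ n ∧ (n : ℤ) ≤ |μ| ∧ IsSondow μ n) ∨
      (∃ k : ℕ, 201 ≤ k ∧ ¬ Covered k ∧ (2 ^ (2 ^ k) + 1).Prime ∧ μ = ((2 ^ (2 ^ k) : ℕ) : ℤ))) ∧
    (∀ k : ℕ, Covered (k + 360) ↔ Covered k) ∧
    ((Finset.range 360).filter fun k => ∃ e ∈ classes, k % e.1 = e.2).card = 240 := by
  refine ⟨?_, Q239.Sondow.covered_periodic, Q239.Sondow.covered_count⟩
  intro μ hμ
  by_cases h : ∃ k : ℕ, 201 ≤ k ∧ ¬ Covered k ∧ (2 ^ (2 ^ k) + 1).Prime ∧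
      μ = ((2 ^ (2 ^ k) : ℕ) : ℤ)
  · exact Or.inr h
  · left
    refine Q239.Sondow.main μ hμ ?_
    intro k hk hc hp hμk
    exact h ⟨k, hk, hc, hp, hμk⟩

end Pool.Agent.Results.MP_f2d551_nt.OnlyFermatPrimes
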